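import Mathlib

/-!
# Trees of height `k` which are not nonrepetitively `k`-choosable: definitions

The vertices are the words (lists) of length at most `k` over `Fin M`, the root is the empty word,
the children of `w` are the words `b :: w`.
-/

set_option autoImplicit false

namespace Pool.Agent.H54LB

/-- The vertices: words of length at most `k` over `Fin M` (head = deepest letter). -/
abbrev VT (M k : ℕ) : Type := {w : List (Fin M) // w.length ≤ k}

/-- `w` and `b :: w` are adjacent. -/
def GT (M k : ℕ) : SimpleGraph (VT M k) where
  Adj u v := (∃ b : Fin M, u.1 = b :: v.1) ∨ (∃ b : Fin M, v.1 = b :: u.1)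
  symm := ⟨fun _ _ h => h.symm⟩
  loopless := ⟨fun u h => by
    rcases h with ⟨b, hb⟩ | ⟨b, hb⟩
    · have := congrArg List.length hb
      simp at this
    · have := congrArg List.length hb
      simp at this⟩

/-- The node reached from the root by the word `P` (head = last step); `bb s w c` is the letter
chosen at the node `w` for the colour `c`, `s` says which of the two children with this colour. -/
def go {M : ℕ} (bb : Bool → List (Fin M) → ℕ → Fin M) : List (Bool × ℕ) → List (Fin M)
  | [] => []
  | p :: P => bb p.1 (go bb P) p.2 :: go bb P

theorem go_length {M : ℕ} (bb : Bool → List (Fin M) → ℕ → Fin M) (P : List (Bool × ℕ)) :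
    (go bb P).length = P.length := by
  induction P with
  | nil => rfl
  | cons p P ih => simp [go, ih]

end Pool.Agent.H54LB
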