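import Pool.Agent.Lib.H54LB.Def

set_option autoImplicit false

namespace Pool.Agent.H54LB

instance (M k : ℕ) : Finite (VT M k) :=
  (List.finite_length_le (Fin M) k).to_subtype

private theorem suffix_step {M k : ℕ} {v w a a' : VT M k} {b : Fin M} (hvw : v.1 = b :: w.1)
    (h : ((GT M k).deleteEdges {s(v, w)}).Adj a a') (ha : v.1 <:+ a.1) :
    v.1 <:+ a'.1 := by
  rw [SimpleGraph.deleteEdges_adj] at h
  obtain ⟨h1, h2⟩ := h
  rcases h1 with ⟨c, hc⟩ | ⟨c, hc⟩
  · rw [hc, List.suffix_cons_iff] at ha
    rcases ha with ha | ha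
    · exfalso
      apply h2
      have h3 : v = a := Subtype.ext (ha.trans hc.symm)
      have h4 : w = a' := by
        rw [hvw] at ha
        exact Subtype.ext (List.cons.inj ha).2
      rw [h3, h4]
      exact Set.mem_singleton _
    · exact ha
  · rw [hc]
    exact ha.trans (List.suffix_cons _ _)

private theorem suffix_walk {M k : ℕ} {v w : VT M k} {b : Fin M} (hvw : v.1 = b :: w.1)
    {a x : VT M k} (p : ((GT M k).deleteEdges {s(v, w)}).Walk a x) :
    v.1 <:+ a.1 → v.1 <:+ x.1 := by
  induction p with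
  | nil => exact id
  | cons h p ih => exact fun ha => ih (suffix_step hvw h ha)

private theorem bridge {M k : ℕ} {v w : VT M k} {b : Fin M} (hvw : v.1 = b :: w.1) :
    (GT M k).IsBridge s(v, w) := by
  rw [SimpleGraph.isBridge_iff]
  rintro ⟨p⟩
  have h1 := (suffix_walk hvw p List.suffix_rfl).length_le
  rw [hvw] at h1
  simp at h1

private theorem reach {M k : ℕ} : ∀ (w : List (Fin M)) (hw : w.length ≤ k),
    (GT M k).Reachable ⟨w, hw⟩ ⟨[], Nat.zero_le k⟩
  | [], _ => SimpleGraph.Reachable.refl _
  | b :: w, hw => by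
    have hw' : w.length ≤ k := by
      rw [List.length_cons] at hw
      omega
    have hadj : (GT M k).Adj ⟨b :: w, hw⟩ ⟨w, hw'⟩ := Or.inl ⟨b, rfl⟩
    exact hadj.reachable.trans (reach w hw')

/-- The graph is a tree.

Proof.  Connected: every word is joined to the empty word by induction on its length.  Acyclic:
every edge `b :: w`, `w` is a bridge, since the words with the suffix `b :: w` are not joined to the
others when it is deleted. -/
theorem isTree (M k : ℕ) : (GT M k).IsTree := by
  have hne : Nonempty (VT M k) := ⟨⟨[], Nat.zero_le k⟩⟩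
  refine ⟨?_, ?_⟩
  · exact SimpleGraph.Connected.mk fun u v => (reach u.1 u.2).trans (reach v.1 v.2).symm
  · rw [SimpleGraph.isAcyclic_iff_forall_adj_isBridge]
    intro v w h
    rcases h with ⟨b, hb⟩ | ⟨b, hb⟩
    · exact bridge hb
    · rw [Sym2.eq_swap]
      exact bridge hb

end Pool.Agent.H54LB
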