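import Pool.Agent.Lib.H54LB.T1

set_option autoImplicit false

namespace Pool.Agent.H54LB

/-- the value of a word in base `M` -/
private def val {M : ℕ} : List (Fin M) → ℕ
  | [] => 0
  | b :: w => val w * M + b.1

private theorem val_lt {M : ℕ} (w : List (Fin M)) : val w < M ^ w.length := by
  induction w with
  | nil => simp [val]
  | cons b w ih =>
    have hb := b.2
    have h1 : (val w + 1) * M ≤ M ^ w.length * M := Nat.mul_le_mul_right M ih
    simp only [val, List.length_cons, pow_succ]
    have h2 : (val w + 1) * M = val w * M + M := by ring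
    omega

private theorem val_inj {M : ℕ} (w w' : List (Fin M)) (hl : w.length = w'.length)
    (hv : val w = val w') : w = w' := by
  induction w generalizing w' with
  | nil =>
    cases w' with
    | nil => rfl
    | cons b w' => simp at hl
  | cons b w ih =>
    cases w' with
    | nil => simp at hl
    | cons b' w' =>
      simp only [val] at hv
      simp only [List.length_cons, add_left_inj] at hl
      have hb := b.2
      have hb' := b'.2
      have hM : 0 < M := by omega
      have h1 : (val w * M + b.1) / M = val w := by
        rw [Nat.mul_comm, Nat.mul_add_div hM, Nat.div_eq_of_lt hb, add_zero]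
      have h2 : (val w' * M + b'.1) / M = val w' := by
        rw [Nat.mul_comm, Nat.mul_add_div hM, Nat.div_eq_of_lt hb', add_zero]
      have h3 : val w = val w' := by rw [← h1, ← h2, hv]
      have h4 : b.1 = b'.1 := by rw [h3] at hv; omega
      rw [ih w' hl h3, Fin.ext h4]

/-- The path-decomposition of width `k`.

Proof.  `val [] = 0`, `val (b :: w) = val w * M + b`, so `val w < M ^ w.length` and `w` is determined
by its length and `val w`.  `B n = {w | n < M ^ k ∧ val w = n / M ^ (k - w.length)}` (the word of
length `k` with value `n` and its suffixes): `w ↦ w.length` is injective on `B n`, so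
`card ≤ k + 1`; `w` is in the bag `n = val w * M ^ (k - w.length)`, and for `u = b :: v` the bag
`n = val u * M ^ (k - u.length)` contains `u` and `v`; the third property is the monotonicity of
`n ↦ n / M ^ (k - w.length)`. -/
theorem pathwidth (M k : ℕ) : ∃ B : ℕ → Finset (VT M k), (∀ i, (B i).card ≤ k + 1) ∧
    (∀ v : VT M k, ∃ i, v ∈ B i) ∧
    (∀ u v : VT M k, (GT M k).Adj u v → ∃ i, u ∈ B i ∧ v ∈ B i) ∧
    (∀ (v : VT M k) (i j m : ℕ), i ≤ j → j ≤ m → v ∈ B i → v ∈ B m → v ∈ B j) := by
  classical
  rcases Nat.eq_zero_or_pos M with rfl | hM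
  · have hs : ∀ u v : VT 0 k, u = v := by
      rintro ⟨u, hu⟩ ⟨v, hv⟩
      apply Subtype.ext
      show u = v
      cases u with
      | nil =>
        cases v with
        | nil => rfl
        | cons b v => exact b.elim0
      | cons b u => exact b.elim0
    refine ⟨fun _ => {⟨[], by simp⟩}, fun i => by simp, fun v => ⟨0, ?_⟩, fun u v _ => ⟨0, ?_, ?_⟩,
      fun v i j m _ _ h _ => h⟩
    · rw [Finset.mem_singleton]; exact hs _ _
    · rw [Finset.mem_singleton]; exact hs _ _
    · rw [Finset.mem_singleton]; exact hs _ _
  · have hfin : ∀ n : ℕ, {w : VT M k | n < M ^ k ∧ val w.1 = n / M ^ (k - w.1.length)}.Finite :=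
      fun n => Set.toFinite _
    have hmem : ∀ (n : ℕ) (w : VT M k), w ∈ (hfin n).toFinset ↔
        n < M ^ k ∧ val w.1 = n / M ^ (k - w.1.length) := fun n w => by
      rw [Set.Finite.mem_toFinset]; rfl
    have hself : ∀ v : VT M k, v ∈ (hfin (val v.1 * M ^ (k - v.1.length))).toFinset := by
      intro v
      rw [hmem]
      have hp : 0 < M ^ (k - v.1.length) := pow_pos hM _
      constructor
      · calc val v.1 * M ^ (k - v.1.length) < M ^ v.1.length * M ^ (k - v.1.length) :=
            Nat.mul_lt_mul_of_pos_right (val_lt v.1) hp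
          _ = M ^ k := by rw [← pow_add]; congr 1; have := v.2; omega
      · rw [Nat.mul_div_cancel _ hp]
    have hchild : ∀ (u v : VT M k) (b : Fin M), u.1 = b :: v.1 →
        v ∈ (hfin (val u.1 * M ^ (k - u.1.length))).toFinset := by
      intro u v b hb
      have h1 := (hmem _ _).1 (hself u)
      rw [hmem]
      refine ⟨h1.1, ?_⟩
      have hp : 0 < M ^ (k - u.1.length) := pow_pos hM _
      have hl : u.1.length = v.1.length + 1 := by rw [hb]; simp
      have hk : k - v.1.length = (k - u.1.length) + 1 := by have := u.2; omega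
      rw [hk, pow_succ, ← Nat.div_div_eq_div_mul, Nat.mul_div_cancel _ hp, hb]
      simp only [val]
      rw [Nat.mul_comm, Nat.mul_add_div hM, Nat.div_eq_of_lt b.2, add_zero]
    refine ⟨fun n => (hfin n).toFinset, fun n => ?_, fun v => ⟨_, hself v⟩, ?_, ?_⟩
    · have h := Finset.card_le_card_of_injOn (s := (hfin n).toFinset) (t := Finset.range (k + 1))
        (fun w : VT M k => w.1.length)
        (fun w _ => by simp only [Finset.coe_range, Set.mem_Iio]; have := w.2; omega)
        (fun w hw w' hw' hl => by
          have h1 := ((hmem _ _).1 hw).2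
          have h2 := ((hmem _ _).1 hw').2
          have hl' : w.1.length = w'.1.length := hl
          apply Subtype.ext
          apply val_inj _ _ hl'
          rw [h1, h2, hl'])
      rwa [Finset.card_range] at h
    · rintro u v (⟨b, hb⟩ | ⟨b, hb⟩)
      · exact ⟨_, hself u, hchild u v b hb⟩
      · exact ⟨_, hchild v u b hb, hself v⟩
    · intro v i j m hij hjm hi hm
      rw [hmem] at hi hm ⊢
      refine ⟨lt_of_le_of_lt hjm hm.1, le_antisymm ?_ ?_⟩
      · rw [hi.2]; exact Nat.div_le_div_right hij
      · rw [hm.2]; exact Nat.div_le_div_right hjm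

end Pool.Agent.H54LB
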