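import Pool.Agent.Lib.H54LB.Def

set_option autoImplicit false

namespace Pool.Agent.H54LB

open Finset in
private theorem bad_card {n q N : ℕ} (j : Fin n) (Φ : (Fin n → Fin N) → Finset (Fin N))
    (hq : ∀ x, (Φ x).card ≤ q) (hind : ∀ x y, Φ (Function.update x j y) = Φ x) :
    N * (univ.filter fun x : Fin n → Fin N => x j ∈ Φ x).card ≤ q * N ^ n := by
  classical
  have h1 : ((univ.filter fun x : Fin n → Fin N => x j ∈ Φ x) ×ˢ (univ : Finset (Fin N))).card ≤
      ((univ : Finset (Fin n → Fin N)).sigma fun z => Φ z).card := by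
    refine Finset.card_le_card_of_injOn
      (fun p => (⟨Function.update p.1 j p.2, p.1 j⟩ : Σ _ : Fin n → Fin N, Fin N)) ?_ ?_
    · intro p hp
      rw [Finset.mem_coe, Finset.mem_product, Finset.mem_filter] at hp
      rw [Finset.mem_coe, Finset.mem_sigma]
      refine ⟨mem_univ _, ?_⟩
      show p.1 j ∈ Φ (Function.update p.1 j p.2)
      rw [hind]
      exact hp.1.2
    · rintro ⟨x, y⟩ _ ⟨x', y'⟩ _ h
      have h2 : Function.update x j y = Function.update x' j y' := congrArg Sigma.fst h
      have h3 : x j = x' j := by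
        have h4 := congrArg (fun s : (Σ _ : Fin n → Fin N, Fin N) => s.2) h
        exact h4
      have h5 : y = y' := by
        have := congrFun h2 j
        rwa [Function.update_self, Function.update_self] at this
      have h6 : x = x' := by
        funext i
        by_cases hi : i = j
        · rw [hi]
          exact h3
        · have := congrFun h2 i
          rwa [Function.update_of_ne hi, Function.update_of_ne hi] at this
      rw [h5, h6]
  rw [Finset.card_product, Finset.card_univ, Fintype.card_fin, Finset.card_sigma] at h1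
  have h2 : ∑ z : Fin n → Fin N, (Φ z).card ≤ N ^ n * q := by
    refine (Finset.sum_le_card_nsmul _ _ q fun z _ => hq z).trans ?_
    rw [Finset.card_univ, Fintype.card_fun, Fintype.card_fin, Fintype.card_fin, smul_eq_mul]
  calc N * (univ.filter fun x : Fin n → Fin N => x j ∈ Φ x).card
      = (univ.filter fun x : Fin n → Fin N => x j ∈ Φ x).card * N := mul_comm _ _
    _ ≤ N ^ n * q := h1.trans h2
    _ = q * N ^ n := mul_comm _ _

/-- Union bound.  Each condition `i` forbids at most `q` values for the coordinate `j i`, depending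
on the other coordinates.

Proof.  For each `i`: `N * #{x | x (j i) ∈ Φ i x} = #{(x, y) | y ∈ Φ i x} ≤ q * N ^ n` (the map
`(x, y) ↦ (update x (j i) y, x (j i))` is a bijection, and `Φ i (update x (j i) y) = Φ i x`).
Summing, the number of bad `x` times `N` is at most `card ι * q * N ^ n < N * N ^ n`. -/
theorem exists_good {ι : Type} [Fintype ι] (n q N : ℕ) (hN : Fintype.card ι * q < N)
    (j : ι → Fin n) (Φ : ι → (Fin n → Fin N) → Finset (Fin N)) (hq : ∀ i x, (Φ i x).card ≤ q)
    (hind : ∀ i x y, Φ i (Function.update x (j i) y) = Φ i x) :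
    ∃ x : Fin n → Fin N, ∀ i, x (j i) ∉ Φ i x := by
  classical
  by_contra hcon
  push Not at hcon
  have hNpos : 0 < N := by omega
  have h1 : (Finset.univ : Finset (Fin n → Fin N)) ⊆
      Finset.univ.biUnion fun i : ι => Finset.univ.filter fun x : Fin n → Fin N => x (j i) ∈ Φ i x := by
    intro x _
    obtain ⟨i, hi⟩ := hcon x
    exact Finset.mem_biUnion.2 ⟨i, Finset.mem_univ _, Finset.mem_filter.2 ⟨Finset.mem_univ _, hi⟩⟩
  have h2 := (Finset.card_le_card h1).trans Finset.card_biUnion_le
  rw [Finset.card_univ, Fintype.card_fun, Fintype.card_fin, Fintype.card_fin] at h2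
  have h3 : N * N ^ n ≤ Fintype.card ι * (q * N ^ n) := by
    calc N * N ^ n ≤ N * ∑ i : ι, (Finset.univ.filter fun x : Fin n → Fin N => x (j i) ∈ Φ i x).card :=
          Nat.mul_le_mul_left _ h2
      _ = ∑ i : ι, N * (Finset.univ.filter fun x : Fin n → Fin N => x (j i) ∈ Φ i x).card :=
          Finset.mul_sum _ _ _
      _ ≤ ∑ _i : ι, q * N ^ n := Finset.sum_le_sum fun i _ => bad_card (j i) (Φ i) (hq i) (hind i)
      _ = Fintype.card ι * (q * N ^ n) := by
          rw [Finset.sum_const, Finset.card_univ, smul_eq_mul]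
  have h4 : 0 < N ^ n := pow_pos hNpos _
  have h5 : Fintype.card ι * (q * N ^ n) = (Fintype.card ι * q) * N ^ n := by ring
  rw [h5] at h3
  exact absurd (Nat.le_of_mul_le_mul_right h3 h4) (not_le.2 hN)

end Pool.Agent.H54LB
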