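import Pool.Agent.Lib.H54LB.T3

set_option autoImplicit false

namespace Pool.Agent.H54LB

/-- There is a word `x` of `n` colours which avoids all forbidden sets of the nodes reached by words
in the other letters.

Proof.  `exists_good` with `q = n` (for `n = 0` nothing to prove) and the conditions: all pairs
`(P, j)`, `P` a list of length at most `n` over `Bool × Fin n`, `j` not in it: `x j ∉ F (node P)`
(at most `n` forbidden values, `go_length`; independent of `x j`); all pairs `i ≠ j`: `x j ≠ x i`
(one forbidden value); all `j`: `x j ≠ c0` (one value).  `ι` is a finite type whose size depends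
only on `n`; `N0 = card ι * n + 1`. -/
theorem exists_word (n : ℕ) : ∃ N0 : ℕ, ∀ N : ℕ, N0 ≤ N → ∀ (M : ℕ)
    (F : List (Fin M) → Finset ℕ) (bb : Bool → List (Fin M) → ℕ → Fin M) (c0 : ℕ),
    (∀ w : List (Fin M), w.length ≤ n → (F w).card ≤ n) →
    ∃ x : Fin n → ℕ, (∀ j, x j < N) ∧ Function.Injective x ∧ (∀ j, x j ≠ c0) ∧
      ∀ (P : List (Bool × Fin n)) (j : Fin n), P.length ≤ n → j ∉ P.map Prod.snd →
        x j ∉ F (go bb (P.map fun p => (p.1, x p.2))) := by
  classical
  have hfin : Finite {P : List (Bool × Fin n) // P.length ≤ n} :=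
    (List.finite_length_le (Bool × Fin n) n).to_subtype
  have hft : Fintype {P : List (Bool × Fin n) // P.length ≤ n} := Fintype.ofFinite _
  refine ⟨Fintype.card ({p : {P : List (Bool × Fin n) // P.length ≤ n} × Fin n // p.2 ∉ p.1.1.map Prod.snd} ⊕
    ({p : Fin n × Fin n // p.1 ≠ p.2} ⊕ Fin n)) * n + 1, fun N hN M F bb c0 hF => ?_⟩
  obtain ⟨x, hx⟩ := exists_good n n N (Nat.lt_of_succ_le hN)
    (Sum.elim (fun p => p.1.2) (Sum.elim (fun p => p.1.2) id) :
      {p : {P : List (Bool × Fin n) // P.length ≤ n} × Fin n // p.2 ∉ p.1.1.map Prod.snd} ⊕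
        ({p : Fin n × Fin n // p.1 ≠ p.2} ⊕ Fin n) → Fin n)
    (fun i x => Sum.elim
      (fun p => Finset.univ.filter fun y : Fin N => (y : ℕ) ∈ F (go bb (p.1.1.1.map fun q => (q.1, (x q.2 : ℕ)))))
      (Sum.elim (fun p => {x p.1.1}) (fun _ => Finset.univ.filter fun y : Fin N => (y : ℕ) = c0)) i)
    (by
      rintro (⟨⟨P, j⟩, hp⟩ | ⟨p, hp⟩ | j) x
      · have h1 : (Finset.univ.filter fun y : Fin N => (y : ℕ) ∈
            F (go bb (P.1.map fun q => (q.1, (x q.2 : ℕ))))).card ≤
            (F (go bb (P.1.map fun q => (q.1, (x q.2 : ℕ))))).card := by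
          refine Finset.card_le_card_of_injOn (fun y : Fin N => (y : ℕ)) (fun y hy => ?_) (fun a _ b _ h => Fin.ext h)
          exact (Finset.mem_filter.1 hy).2
        refine h1.trans (hF _ ?_)
        rw [go_length, List.length_map]
        exact P.2
      · have : 1 ≤ n := p.1.pos
        show ({x p.1} : Finset (Fin N)).card ≤ n
        rw [Finset.card_singleton]
        exact this
      · have h0 : 0 < n := j.pos
        have h1 : (Finset.univ.filter fun y : Fin N => (y : ℕ) = c0).card ≤ 1 := by
          rw [Finset.card_le_one]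
          intro a ha b hb
          exact Fin.ext ((Finset.mem_filter.1 ha).2.trans (Finset.mem_filter.1 hb).2.symm)
        exact h1.trans h0)
    (by
      rintro (⟨⟨P, j⟩, hp⟩ | ⟨p, hp⟩ | j) x y
      · have h1 : (P.1.map fun q => (q.1, ((Function.update x j y q.2 : Fin N) : ℕ))) =
            P.1.map fun q => (q.1, (x q.2 : ℕ)) := by
          apply List.map_congr_left
          intro q hq
          have h2 : q.2 ≠ j := by
            rintro rfl
            exact hp (List.mem_map_of_mem hq)
          rw [Function.update_of_ne h2]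
        show (Finset.univ.filter fun y' : Fin N => (y' : ℕ) ∈
            F (go bb (P.1.map fun q => (q.1, ((Function.update x j y q.2 : Fin N) : ℕ))))) = _
        rw [h1]
        rfl
      · show ({Function.update x p.2 y p.1} : Finset (Fin N)) = {x p.1}
        rw [Function.update_of_ne hp]
      · rfl)
  refine ⟨fun j => (x j : ℕ), fun j => (x j).2, ?_, ?_, ?_⟩
  · intro i j hij
    by_contra hne
    have h1 := hx (Sum.inr (Sum.inl ⟨(i, j), hne⟩))
    apply h1
    show x j ∈ ({x i} : Finset (Fin N))
    rw [Finset.mem_singleton]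
    exact (Fin.ext hij).symm
  · intro j h
    apply hx (Sum.inr (Sum.inr j))
    show x j ∈ (Finset.univ.filter fun y : Fin N => (y : ℕ) = c0)
    exact Finset.mem_filter.2 ⟨Finset.mem_univ _, h⟩
  · intro P j hP hj h
    apply hx (Sum.inl ⟨(⟨P, hP⟩, j), hj⟩)
    show x j ∈ (Finset.univ.filter fun y : Fin N => (y : ℕ) ∈ F (go bb (P.map fun q => (q.1, (x q.2 : ℕ)))))
    exact Finset.mem_filter.2 ⟨Finset.mem_univ _, h⟩

end Pool.Agent.H54LB
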