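import Pool.Agent.Lib.H54LB.Def

set_option autoImplicit false

namespace Pool.Agent.H54LB

/-- adjacency of nodes -/
private def RR {M : ℕ} (u v : List (Fin M)) : Prop := (∃ b : Fin M, u = b :: v) ∨ (∃ b : Fin M, v = b :: u)

/-- the nodes of the path from `go bb B` down to `go bb (P ++ B)`, without the first one, the last one first -/
private def down {M : ℕ} (bb : Bool → List (Fin M) → ℕ → Fin M) (B : List (Bool × ℕ)) :
    List (Bool × ℕ) → List (List (Fin M))
  | [] => []
  | p :: P => go bb (p :: (P ++ B)) :: down bb B P

private lemma down_len {M : ℕ} (bb : Bool → List (Fin M) → ℕ → Fin M) (B : List (Bool × ℕ)) :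
    ∀ (P : List (Bool × ℕ)) (w : List (Fin M)), w ∈ down bb B P →
      B.length < w.length ∧ w.length ≤ P.length + B.length
  | [], w, h => absurd h List.not_mem_nil
  | p :: P, w, h => by
      have hl : (p :: P).length = P.length + 1 := rfl
      rcases List.mem_cons.1 h with h | h
      · rw [h, go_length]
        simp only [List.length_cons, List.length_append]
        omega
      · have := down_len bb B P w h
        omega

private lemma down_nodup {M : ℕ} (bb : Bool → List (Fin M) → ℕ → Fin M) (B : List (Bool × ℕ)) :
    ∀ P : List (Bool × ℕ), (down bb B P).Nodup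
  | [] => List.nodup_nil
  | p :: P => by
      refine List.nodup_cons.2 ⟨fun h => ?_, down_nodup bb B P⟩
      have := (down_len bb B P _ h).2
      rw [go_length] at this
      simp only [List.length_cons, List.length_append] at this
      omega

private lemma go_suffix {M : ℕ} (bb : Bool → List (Fin M) → ℕ → Fin M) (B : List (Bool × ℕ)) :
    ∀ P : List (Bool × ℕ), go bb B <:+ go bb (P ++ B)
  | [] => List.suffix_rfl
  | p :: P => (go_suffix bb B P).trans (List.suffix_cons _ _)

private lemma down_suffix {M : ℕ} (bb : Bool → List (Fin M) → ℕ → Fin M) (B : List (Bool × ℕ))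
    (q : Bool × ℕ) : ∀ (P : List (Bool × ℕ)) (w : List (Fin M)), w ∈ down bb B (P ++ [q]) →
      go bb (q :: B) <:+ w
  | [], w, h => by
      rcases List.mem_cons.1 h with h | h
      · rw [h]
        exact List.suffix_rfl
      · exact absurd h List.not_mem_nil
  | p :: P, w, h => by
      rcases List.mem_cons.1 h with h | h
      · rw [h]
        have h1 := go_suffix bb (q :: B) (p :: P)
        have e : p :: P ++ q :: B = p :: (P ++ [q] ++ B) := by simp
        rw [e] at h1
        exact h1
      · exact down_suffix bb B q P w h

private lemma down_chain {M : ℕ} (bb : Bool → List (Fin M) → ℕ → Fin M) (B : List (Bool × ℕ)) :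
    ∀ P : List (Bool × ℕ), (down bb B P ++ [go bb B]).IsChain RR
  | [] => List.isChain_singleton _
  | [p] => by
      show [go bb (p :: ([] ++ B)), go bb B].IsChain RR
      rw [List.isChain_cons_cons]
      exact ⟨Or.inl ⟨_, rfl⟩, List.isChain_singleton _⟩
  | p :: p' :: P => by
      have h1 := down_chain bb B (p' :: P)
      show (go bb (p :: (p' :: P ++ B)) :: go bb (p' :: (P ++ B)) ::
        (down bb B P ++ [go bb B])).IsChain RR
      rw [List.isChain_cons_cons]
      exact ⟨Or.inl ⟨_, rfl⟩, h1⟩

private lemma glue {M : ℕ} {L1 L2 : List (List (Fin M))} {w : List (Fin M)}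
    (h1 : (L1 ++ [w]).IsChain RR) (h2 : (L2 ++ [w]).IsChain RR) : (L1 ++ w :: L2.reverse).IsChain RR := by
  rw [List.isChain_split]
  refine ⟨h1, ?_⟩
  have e : w :: L2.reverse = (L2 ++ [w]).reverse := by simp
  rw [e, List.isChain_reverse]
  exact h2.imp fun a b h => Or.symm h

private lemma map_down {M : ℕ} (bb : Bool → List (Fin M) → ℕ → Fin M) (f : List (Fin M) → ℕ)
    (B : List (Bool × ℕ)) : ∀ P : List (Bool × ℕ),
      (∀ (P' : List (Bool × ℕ)) (p : Bool × ℕ), p :: P' <:+ P → f (go bb (p :: (P' ++ B))) = p.2) →
      (down bb B P).map f = P.map Prod.snd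
  | [], _ => rfl
  | p :: P, h => by
      show f (go bb (p :: (P ++ B))) :: (down bb B P).map f = p.2 :: P.map Prod.snd
      rw [h P p List.suffix_rfl, map_down bb f B P fun P' p' hp => h P' p' (hp.trans (List.suffix_cons _ _))]

/-- The repetitive path.

Proof.  `A t = go bb [(true, x (t-1)), ..., (true, x 0)]` for `t ≤ n`, a node of length `t`;
`f (A (t+1)) = x t` by `hx` and `hbb`.  The `n + 1` colours `f (A 0) = f [], x 0, ..., x (n-1)` are
different and less than `N` and `F (A n)` has at most `n` elements, so there is `i ≤ n` with
`f (A i) ∉ F (A n)`; `y = bb true (A n) (f (A i)) :: A n` has the colour `f (A i)`.  If `i = n`: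
the list `[y, A n]`.  If `i < n`: `Z 0 = A i`, `Z 1 = bb false (A i) (x (n-1)) :: A i`,
`Z (s+1) = bb true (Z s) (x (n-1-s)) :: Z s` for `s ≤ n - 1 - i` (`Z s = go bb (..)`, the letters
used are those with the indices `< i` and `≥ n - s`, so `hx` applies and `f (Z (s+1)) =
x (n-1-s)`).  The list `[y, A n, A (n-1), ..., A (i+1)] ++ [A i, Z 1, ..., Z (n-i)]` has the colours
`f (A i), x (n-1), ..., x i` twice.  It has no repeated vertex: `A (i+1)` is a suffix of the first
ones and `Z 1 ≠ A (i+1)` (`bb true ≠ bb false` or different colours) is a suffix of `Z s`, `s ≥ 1`.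
(Suggestion: prove a general lemma by induction on lists of colours.) -/
theorem exists_rep (n N M : ℕ) (f : List (Fin M) → ℕ) (F : List (Fin M) → Finset ℕ)
    (bb : Bool → List (Fin M) → ℕ → Fin M) (h0 : f [] < N)
    (hF : ∀ w : List (Fin M), w.length ≤ n → (F w).card ≤ n)
    (hbb : ∀ (w : List (Fin M)) (c : ℕ), w.length ≤ n → c < N → c ∉ F w →
      f (bb true w c :: w) = c ∧ f (bb false w c :: w) = c ∧ bb true w c ≠ bb false w c)
    (x : Fin n → ℕ) (hxN : ∀ j, x j < N) (hinj : Function.Injective x) (hx0 : ∀ j, x j ≠ f [])
    (hx : ∀ (P : List (Bool × Fin n)) (j : Fin n), P.length ≤ n → j ∉ P.map Prod.snd →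
        x j ∉ F (go bb (P.map fun p => (p.1, x p.2)))) :
    ∃ l : List (List (Fin M)),
      l.IsChain (fun u v => (∃ b : Fin M, u = b :: v) ∨ (∃ b : Fin M, v = b :: u)) ∧
      l.Nodup ∧ (∀ w ∈ l, w.length ≤ n + 1) ∧ ∃ a : List ℕ, a ≠ [] ∧ l.map f = a ++ a := by
  classical
  obtain ⟨φ, hφ⟩ : ∃ φ : Bool × Fin n → Bool × ℕ, φ = fun p => (p.1, x p.2) := ⟨_, rfl⟩
  -- colours of the nodes
  have col : ∀ (Q : List (Bool × Fin n)) (p : Bool × Fin n), ((p :: Q).map Prod.snd).Nodup →
      f (go bb (φ p :: Q.map φ)) = x p.2 ∧ x p.2 ∉ F (go bb (Q.map φ)) ∧ Q.length ≤ n := by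
    intro Q p hnd
    have hnd' := hnd
    rw [List.map_cons, List.nodup_cons] at hnd
    have hlen : Q.length ≤ n := by
      have h1 := hnd.2.length_le_card
      rw [List.length_map, Fintype.card_fin] at h1
      exact h1
    have h1 := hx Q p.2 hlen hnd.1
    rw [← hφ] at h1
    have h2 := hbb (go bb (Q.map φ)) (x p.2) (by rw [go_length, List.length_map]; exact hlen) (hxN p.2) h1
    refine ⟨?_, h1, hlen⟩
    rw [hφ]
    rw [hφ] at h2
    show f (bb p.1 (go bb (Q.map fun p => (p.1, x p.2))) (x p.2) :: go bb (Q.map fun p => (p.1, x p.2))) = x p.2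
    cases p.1
    · exact h2.2.1
    · exact h2.1
  -- the list of all letters
  obtain ⟨J, hJnd, hJlen⟩ : ∃ J : List (Fin n), J.Nodup ∧ J.length = n :=
    ⟨List.finRange n, List.nodup_finRange n, List.length_finRange⟩
  obtain ⟨tf, htf⟩ : ∃ tf : List (Fin n) → List (Bool × ℕ), tf = fun L => (L.map fun j => ((true, j) : Bool × Fin n)).map φ :=
    ⟨_, rfl⟩
  have htfl : ∀ L, (tf L).length = L.length := by
    intro L
    rw [htf]
    simp
  -- a suffix whose colour is free at the end
  obtain ⟨R, Bl, hRB, hfree⟩ : ∃ R Bl : List (Fin n), R ++ Bl = J ∧ f (go bb (tf Bl)) ∉ F (go bb (tf J)) := by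
    by_contra hcon
    push Not at hcon
    have hcard := hF (go bb (tf J)) (by rw [go_length, htfl, hJlen])
    have hsub : insert (f []) (Finset.univ.image x) ⊆ F (go bb (tf J)) := by
      intro c hc
      rw [Finset.mem_insert] at hc
      rcases hc with hc | hc
      · have := hcon J [] (by simp)
        rw [htf] at this
        rw [hc, htf]
        exact this
      · obtain ⟨j, -, rfl⟩ := Finset.mem_image.1 hc
        have hjJ : j ∈ J := by
          have h1 : J.toFinset = Finset.univ := by
            apply Finset.eq_univ_of_card
            rw [List.toFinset_card_of_nodup hJnd, hJlen, Fintype.card_fin]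
          rw [← List.mem_toFinset, h1]
          exact Finset.mem_univ _
        obtain ⟨R, Bl, hRB⟩ := List.append_of_mem hjJ
        have h1 := hcon R (j :: Bl) hRB.symm
        have h2 := (col (Bl.map fun j => ((true, j) : Bool × Fin n)) (true, j) (by
          have e : (((true, j) : Bool × Fin n) :: Bl.map fun j => ((true, j) : Bool × Fin n)).map Prod.snd = j :: Bl := by
            simp [List.map_map, Function.comp_def]
          rw [e]
          rw [hRB] at hJnd
          exact hJnd.of_append_right)).1
        have h3 : go bb (tf (j :: Bl)) = go bb (φ (true, j) :: (Bl.map fun j => ((true, j) : Bool × Fin n)).map φ) := by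
          rw [htf]
          rfl
        rw [h3, h2] at h1
        exact h1
    have h1 := Finset.card_le_card hsub
    rw [Finset.card_insert_of_notMem, Finset.card_image_of_injective _ hinj, Finset.card_univ,
      Fintype.card_fin] at h1
    · omega
    · intro h
      obtain ⟨j, -, hj⟩ := Finset.mem_image.1 h
      exact hx0 j hj
  obtain ⟨c, hc⟩ : ∃ c, c = f (go bb (tf Bl)) := ⟨_, rfl⟩
  obtain ⟨B, hB⟩ : ∃ B, B = tf Bl := ⟨_, rfl⟩
  have hcN : c < N := by
    rw [hc]
    cases Bl with
    | nil =>
      rw [htf]
      exact h0
    | cons j Bl =>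
      have h2 := (col (Bl.map fun j => ((true, j) : Bool × Fin n)) (true, j) (by
          have e : (((true, j) : Bool × Fin n) :: Bl.map fun j => ((true, j) : Bool × Fin n)).map Prod.snd = j :: Bl := by
            simp [List.map_map, Function.comp_def]
          rw [e]
          rw [← hRB] at hJnd
          exact hJnd.of_append_right)).1
      have h3 : go bb (tf (j :: Bl)) = go bb (φ (true, j) :: (Bl.map fun j => ((true, j) : Bool × Fin n)).map φ) := by
        rw [htf]
        rfl
      rw [h3, h2]
      exact hxN j
  have hJB : tf J = tf R ++ B := by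
    rw [hB, htf, ← hRB]
    simp
  have hBlen : B.length = Bl.length := by rw [hB, htfl]
  have hlens : R.length + Bl.length = n := by
    have h := congrArg List.length hRB
    rw [List.length_append, hJlen] at h
    exact h
  -- the last vertex of the first branch
  have hy := hbb (go bb (tf J)) c (by rw [go_length, htfl, hJlen]) hcN (by rw [hc]; exact hfree)
  -- colours on the first branch
  have hcol1 : ∀ (P' : List (Bool × ℕ)) (p : Bool × ℕ), p :: P' <:+ ((true, c) :: tf R) →
      f (go bb (p :: (P' ++ B))) = p.2 := by
    intro P' p hp
    rcases List.suffix_cons_iff.1 hp with h1 | h1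
    · simp only [List.cons.injEq] at h1
      rw [h1.1, h1.2, ← hJB]
      exact hy.1
    · rw [htf] at h1
      obtain ⟨T, hT⟩ := h1
      obtain ⟨T1, T2, hT12, hT1, hT2⟩ := List.map_eq_append_iff.1 hT.symm
      obtain ⟨q, T3, hT3, hq, hT3'⟩ := List.map_eq_cons_iff.1 hT2
      obtain ⟨U1, U2, hU12, hU1, hU2⟩ := List.map_eq_append_iff.1 hT12
      rw [hT3] at hU2
      obtain ⟨j, U3, hU3, hj, hU3'⟩ := List.map_eq_cons_iff.1 hU2
      have h2 := (col (T3 ++ Bl.map fun j => ((true, j) : Bool × Fin n)) q (by
        rw [← hj, ← hU3']
        have e : (((true, j) : Bool × Fin n) :: (U3.map (fun j => ((true, j) : Bool × Fin n)) ++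
            Bl.map fun j => ((true, j) : Bool × Fin n))).map Prod.snd = j :: (U3 ++ Bl) := by
          simp [List.map_map, Function.comp_def]
        rw [e]
        have e2 : J = U1 ++ (j :: (U3 ++ Bl)) := by
          rw [← hRB, hU12, hU3]
          simp
        rw [e2] at hJnd
        exact hJnd.of_append_right)).1
      have e3 : φ q :: (T3 ++ Bl.map fun j => ((true, j) : Bool × Fin n)).map φ = p :: (P' ++ B) := by
        rw [List.map_append, hq, hT3', hB, htf]
      rw [e3] at h2
      rw [h2, ← hq, hφ]
  rcases List.eq_nil_or_concat R with hR | ⟨R1, q, hRq⟩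
  · -- the case of one edge
    refine ⟨down bb B [(true, c)] ++ go bb B :: (down bb B []).reverse, ?_, ?_, ?_, [c], by simp, ?_⟩
    · exact glue (down_chain bb B _) (down_chain bb B _)
    · show [go bb ((true, c) :: ([] ++ B)), go bb B].Nodup
      rw [List.nodup_cons]
      refine ⟨fun h => ?_, List.nodup_singleton _⟩
      rw [List.mem_singleton] at h
      have := congrArg List.length h
      rw [go_length, go_length] at this
      simp at this
    · intro w hw
      rw [hR] at hlens
      rcases List.mem_append.1 hw with h | h
      · have := (down_len bb B _ w h).2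
        rw [hBlen] at this
        simp only [List.length_cons, List.length_nil] at this hlens
        omega
      · rcases List.mem_cons.1 h with h | h
        · rw [h, go_length, hBlen]
          simp only [List.length_nil] at hlens
          omega
        · exact absurd h (by simp [down])
    · have h1 := map_down bb f B [(true, c)] (by
        intro P' p hp
        refine hcol1 P' p ?_
        rw [hR, htf]
        exact hp)
      rw [List.map_append, h1]
      show [c] ++ [f (go bb B)] = _
      rw [hB, ← hc]
  · -- the general case
    obtain ⟨r, R2, hRr⟩ : ∃ r R2, R = r :: R2 := by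
      cases R with
      | nil => simp at hRq
      | cons r R2 => exact ⟨r, R2, rfl⟩
    -- the second branch
    obtain ⟨P2, hP2⟩ : ∃ P2 : List (Bool × Fin n),
        P2 = (R2.reverse.map fun j => ((true, j) : Bool × Fin n)) ++ [(false, r)] := ⟨_, rfl⟩
    have hP2snd : P2.map Prod.snd = R.reverse := by
      rw [hP2, hRr]
      simp [List.map_map, Function.comp_def]
    have hcol2 : ∀ (P' : List (Bool × ℕ)) (p : Bool × ℕ), p :: P' <:+ P2.map φ →
        f (go bb (p :: (P' ++ B))) = p.2 := by
      rintro P' p ⟨T, hT⟩
      obtain ⟨T1, T2, hT12, hT1, hT2⟩ := List.map_eq_append_iff.1 hT.symm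
      obtain ⟨q', T3, hT3, hq, hT3'⟩ := List.map_eq_cons_iff.1 hT2
      have h2 := (col (T3 ++ Bl.map fun j => ((true, j) : Bool × Fin n)) q' (by
        have e : (q' :: (T3 ++ Bl.map fun j => ((true, j) : Bool × Fin n))).map Prod.snd =
            (T2.map Prod.snd) ++ Bl := by
          rw [hT3]
          simp [List.map_map, Function.comp_def]
        rw [e]
        have h3 : (R.reverse ++ Bl).Nodup := by
          have h4 : (R ++ Bl).Nodup := by rw [hRB]; exact hJnd
          exact (((List.reverse_perm R).append_right Bl).nodup_iff).2 h4
        rw [← hP2snd, hT12, List.map_append, List.append_assoc] at h3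
        exact h3.of_append_right)).1
      have e3 : φ q' :: (T3 ++ Bl.map fun j => ((true, j) : Bool × Fin n)).map φ = p :: (P' ++ B) := by
        rw [List.map_append, hq, hT3', hB, htf]
      rw [e3] at h2
      rw [h2, ← hq, hφ]
    have hRrev : (tf R).map Prod.snd = R.map x := by
      rw [htf, hφ]
      simp [List.map_map, Function.comp_def]
    have hP2x : (P2.map φ).map Prod.snd = (R.map x).reverse := by
      rw [← List.map_reverse, ← hP2snd, hφ]
      simp [List.map_map, Function.comp_def]
    refine ⟨down bb B ((true, c) :: tf R) ++ go bb B :: (down bb B (P2.map φ)).reverse, ?_, ?_, ?_,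
      c :: R.map x, by simp, ?_⟩
    · exact glue (down_chain bb B _) (down_chain bb B _)
    · rw [List.nodup_append]
      have hrev : ∀ w, w ∈ go bb B :: (down bb B (P2.map φ)).reverse → w = go bb B ∨ w ∈ down bb B (P2.map φ) := by
        intro w hw
        rcases List.mem_cons.1 hw with h | h
        · exact Or.inl h
        · exact Or.inr (List.mem_reverse.1 h)
      refine ⟨down_nodup bb B _, ?_, ?_⟩
      · rw [List.nodup_cons]
        refine ⟨fun h => ?_, List.nodup_reverse.2 (down_nodup bb B _)⟩
        have := (down_len bb B _ _ (List.mem_reverse.1 h)).1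
        rw [go_length] at this
        omega
      · intro w hw w' hw' hww
        subst hww
        rcases hrev w hw' with h | h
        · have := (down_len bb B _ _ hw).1
          rw [h, go_length] at this
          omega
        · -- both suffixes
          have e1 : (true, c) :: tf R = ((true, c) :: tf R1) ++ [φ (true, q)] := by
            rw [hRq, htf]
            simp
          rw [e1] at hw
          have s1 := down_suffix bb B _ _ w hw
          have e2 : P2.map φ = ((R2.reverse.map fun j => ((true, j) : Bool × Fin n)).map φ) ++ [φ (false, r)] := by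
            rw [hP2]
            simp
          rw [e2] at h
          have s2 := down_suffix bb B _ _ w h
          have hl : (go bb (φ (true, q) :: B)).length = (go bb (φ (false, r) :: B)).length := by
            rw [go_length, go_length]
            rfl
          have e3 : go bb (φ (true, q) :: B) = go bb (φ (false, r) :: B) :=
            (List.suffix_of_suffix_length_le s1 s2 hl.le).eq_of_length hl
          have cq := col (Bl.map fun j => ((true, j) : Bool × Fin n)) (true, q) (by
            have e : (((true, q) : Bool × Fin n) :: Bl.map fun j => ((true, j) : Bool × Fin n)).map Prod.snd = q :: Bl := by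
              simp [List.map_map, Function.comp_def]
            rw [e]
            have e5 : J = R1 ++ (q :: Bl) := by
              rw [← hRB, hRq]
              simp
            rw [e5] at hJnd
            exact hJnd.of_append_right)
          have cr := col (Bl.map fun j => ((true, j) : Bool × Fin n)) (false, r) (by
            have e : (((false, r) : Bool × Fin n) :: Bl.map fun j => ((true, j) : Bool × Fin n)).map Prod.snd = r :: Bl := by
              simp [List.map_map, Function.comp_def]
            rw [e]
            have h3 : (R.reverse ++ Bl).Nodup := by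
              have h4 : (R ++ Bl).Nodup := by rw [hRB]; exact hJnd
              exact (((List.reverse_perm R).append_right Bl).nodup_iff).2 h4
            rw [hRr, List.reverse_cons, List.append_assoc] at h3
            exact h3.of_append_right)
          have eB : (Bl.map fun j => ((true, j) : Bool × Fin n)).map φ = B := by
            rw [hB, htf]
          rw [eB] at cq cr
          have hqr : x q = x r := by
            rw [← cq.1, ← cr.1, e3]
          have hqr' : q = r := hinj hqr
          have h6 := hbb (go bb B) (x q) (by
            rw [go_length, hBlen]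
            omega) (hxN q) cq.2.1
          apply h6.2.2
          have h7 : go bb (φ (true, q) :: B) = bb true (go bb B) (x q) :: go bb B := by
            rw [hφ]
            rfl
          have h8 : go bb (φ (false, r) :: B) = bb false (go bb B) (x r) :: go bb B := by
            rw [hφ]
            rfl
          rw [h7, h8, ← hqr] at e3
          exact (List.cons.inj e3).1
    · intro w hw
      have hP2l : (P2.map φ).length = R.length := by
        have := congrArg List.length hP2snd
        rw [List.length_map, List.length_reverse] at this
        rw [List.length_map, this]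
      rcases List.mem_append.1 hw with h | h
      · have := (down_len bb B _ w h).2
        rw [hBlen, List.length_cons, htfl] at this
        omega
      · rcases List.mem_cons.1 h with h | h
        · rw [h, go_length, hBlen]
          omega
        · have := (down_len bb B _ w (List.mem_reverse.1 h)).2
          rw [hBlen, hP2l] at this
          omega
    · rw [List.map_append, List.map_cons, List.map_reverse, map_down bb f B _ hcol1,
        map_down bb f B _ hcol2, hP2x, List.reverse_reverse, List.map_cons, hRrev]
      have : f (go bb B) = c := by rw [hB, hc]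
      rw [this]

end Pool.Agent.H54LB
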