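import Pool.Agent.Lib.H54LB.Def

set_option autoImplicit false

namespace Pool.Agent.H54LB

/-- From a list of vertices to a walk.

Proof.  Build the walk with support `l` by induction on `l` (`List.IsChain`), it is a path since
`l` is `Nodup`; `l.length = 2 * a.length`, and `getVert i` is the `i`-th element of the support. -/
theorem not_nonrep {V : Type} (G : SimpleGraph V) (f : V → ℕ) (l : List V)
    (hc : l.IsChain G.Adj) (hn : l.Nodup) (a : List ℕ) (ha : a ≠ []) (h : l.map f = a ++ a) :
    ∃ (u w : V) (p : G.Walk u w) (k : ℕ), p.IsPath ∧ 1 ≤ k ∧ p.length + 1 = 2 * k ∧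
      ∀ i : ℕ, i < k → f (p.getVert i) = f (p.getVert (i + k)) := by
  have hl : l ≠ [] := by
    rintro rfl
    rw [List.map_nil] at h
    exact ha (List.append_eq_nil_iff.1 h.symm).1
  have hs : (SimpleGraph.Walk.ofSupport l hl hc).support = l := SimpleGraph.Walk.support_ofSupport hl hc
  have hlen : (SimpleGraph.Walk.ofSupport l hl hc).length + 1 = l.length := by
    rw [← SimpleGraph.Walk.length_support, hs]
  have hla : l.length = 2 * a.length := by
    have h1 := congrArg List.length h
    rw [List.length_map, List.length_append] at h1
    omega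
  have hpos : 1 ≤ a.length := List.length_pos_iff.2 ha
  refine ⟨_, _, SimpleGraph.Walk.ofSupport l hl hc, a.length, SimpleGraph.Walk.IsPath.mk' (by rw [hs]; exact hn), hpos,
    by omega, fun i hi => ?_⟩
  have key : ∀ j : ℕ, ∀ hj : j < l.length,
      f ((SimpleGraph.Walk.ofSupport l hl hc).getVert j) = (a ++ a)[j]'(by rw [List.length_append]; omega) := by
    intro j hj
    rw [SimpleGraph.Walk.getVert_eq_support_getElem _ (by omega)]
    simp only [hs, ← h, List.getElem_map]
  rw [key i (by omega), key (i + a.length) (by omega), List.getElem_append_left hi,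
    List.getElem_append_right (by omega)]
  simp only [Nat.add_sub_cancel]

end Pool.Agent.H54LB
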