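import Pool.Agent.Lib.H54LB.T2
import Pool.Agent.Lib.H54LB.T4
import Pool.Agent.Lib.H54LB.T5
import Pool.Agent.Lib.H54LB.T6

/-!
# A tree of path-width `k` which is not nonrepetitively `k`-choosable: assembly
-/

set_option autoImplicit false

namespace Pool.Agent.H54LB

/-- For every `k` there are a finite tree with a path-decomposition of width `k` and lists of `k`
colours such that every colouring from the lists is repetitive on some path. -/
theorem lower (k : ℕ) : ∃ (V : Type) (_ : Fintype V) (G : SimpleGraph V), G.IsTree ∧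
    (∃ B : ℕ → Finset V, (∀ i, (B i).card ≤ k + 1) ∧ (∀ v : V, ∃ i, v ∈ B i) ∧
      (∀ u v : V, G.Adj u v → ∃ i, u ∈ B i ∧ v ∈ B i) ∧
      (∀ (v : V) (i j m : ℕ), i ≤ j → j ≤ m → v ∈ B i → v ∈ B m → v ∈ B j)) ∧
    ∃ L : V → Finset ℕ, (∀ v, (L v).card = k) ∧ ∀ f : V → ℕ, (∀ v, f v ∈ L v) →
      ∃ (u w : V) (p : G.Walk u w) (k : ℕ), p.IsPath ∧ 1 ≤ k ∧ p.length + 1 = 2 * k ∧
        ∀ i : ℕ, i < k → f (p.getVert i) = f (p.getVert (i + k)) := by
  classical
  rcases k with _ | n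
  · refine ⟨VT 0 0, Fintype.ofFinite _, GT 0 0, isTree 0 0, pathwidth 0 0, fun _ => ∅, ?_, ?_⟩
    · intro v
      simp
    · intro f hf
      exact absurd (hf ⟨[], by simp⟩) (by simp)
  obtain ⟨N0, hN0⟩ := exists_word n
  obtain ⟨N, hN1, hN2⟩ : ∃ N, N0 ≤ N ∧ n + 1 ≤ N := ⟨max N0 (n + 1), le_max_left _ _, le_max_right _ _⟩
  let β : Type := {S : Finset ℕ // S ∈ Finset.powersetCard (n + 1) (Finset.range N)} × Fin (n + 2)
  obtain ⟨M, ⟨e⟩⟩ : ∃ M, Nonempty (Fin M ≃ β) :=
    ⟨Fintype.card β, ⟨(Fintype.equivFin β).symm⟩⟩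
  have hr : Finset.range (n + 1) ∈ Finset.powersetCard (n + 1) (Finset.range N) := by
    rw [Finset.mem_powersetCard]
    refine ⟨?_, Finset.card_range _⟩
    intro i hi
    rw [Finset.mem_range] at hi ⊢
    omega
  let Λ : List (Fin M) → Finset ℕ := fun w => match w with
    | [] => Finset.range (n + 1)
    | b :: _ => (e b).1.1
  have hΛ : ∀ w, Λ w ∈ Finset.powersetCard (n + 1) (Finset.range N) := by
    intro w
    rcases w with _ | ⟨b, w⟩
    · exact hr
    · exact (e b).1.2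
  refine ⟨VT M (n + 1), Fintype.ofFinite _, GT M (n + 1), isTree M (n + 1), pathwidth M (n + 1),
    fun v => Λ v.1, fun v => (Finset.mem_powersetCard.1 (hΛ v.1)).2, ?_⟩
  intro f hf
  let g : List (Fin M) → ℕ := fun w => if h : w.length ≤ n + 1 then f ⟨w, h⟩ else 0
  have hg : ∀ v : VT M (n + 1), g v.1 = f v := by
    intro v
    show (if h : v.1.length ≤ n + 1 then f ⟨v.1, h⟩ else 0) = f v
    rw [dif_pos v.2]
  have hgΛ : ∀ w : List (Fin M), w.length ≤ n + 1 → g w ∈ Λ w := by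
    intro w hw
    have := hg ⟨w, hw⟩
    rw [show g w = f ⟨w, hw⟩ from this]
    exact hf ⟨w, hw⟩
  let F : List (Fin M) → Finset ℕ := fun w => (Finset.range N).filter fun c =>
    ¬ ∃ b b' : Fin M, b ≠ b' ∧ g (b :: w) = c ∧ g (b' :: w) = c
  have hF : ∀ w : List (Fin M), w.length ≤ n → (F w).card ≤ n := by
    intro w hw
    by_contra hcon
    obtain ⟨S, hS1, hS2⟩ := Finset.exists_subset_card_eq (n := n + 1) (s := F w) (by omega)
    have hSm : S ∈ Finset.powersetCard (n + 1) (Finset.range N) := by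
      rw [Finset.mem_powersetCard]
      exact ⟨fun c hc => (Finset.mem_filter.1 (hS1 hc)).1, hS2⟩
    let ch : Fin (n + 2) → Fin M := fun j => e.symm (⟨S, hSm⟩, j)
    have hch : Function.Injective ch := by
      intro j j' h
      have := e.symm.injective h
      exact (Prod.mk.inj this).2
    have hmem : ∀ j, g (ch j :: w) ∈ S := by
      intro j
      have h1 := hgΛ (ch j :: w) (by simp; omega)
      have h2 : Λ (ch j :: w) = S := by
        show (e (ch j)).1.1 = S
        show (e (e.symm (⟨S, hSm⟩, j))).1.1 = S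
        rw [Equiv.apply_symm_apply]
      rwa [h2] at h1
    obtain ⟨j, -, j', -, hjj, hjc⟩ := Finset.exists_ne_map_eq_of_card_lt_of_maps_to
      (s := (Finset.univ : Finset (Fin (n + 2)))) (t := S) (f := fun j => g (ch j :: w))
      (by rw [Finset.card_univ, Fintype.card_fin, hS2]; omega) (fun j _ => hmem j)
    have h3 := (Finset.mem_filter.1 (hS1 (hmem j))).2
    exact h3 ⟨ch j, ch j', fun h => hjj (hch h), rfl, hjc.symm⟩
  have hM : Nonempty (Fin M) := ⟨e.symm (⟨_, hr⟩, 0)⟩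
  obtain ⟨b₀⟩ := hM
  have hex : ∀ (w : List (Fin M)) (c : ℕ), ∃ b b' : Fin M, c < N → c ∉ F w →
      b ≠ b' ∧ g (b :: w) = c ∧ g (b' :: w) = c := by
    intro w c
    by_cases h : ∃ b b' : Fin M, b ≠ b' ∧ g (b :: w) = c ∧ g (b' :: w) = c
    · obtain ⟨b, b', h'⟩ := h
      exact ⟨b, b', fun _ _ => h'⟩
    · refine ⟨b₀, b₀, fun h1 h2 => ?_⟩
      exact absurd (Finset.mem_filter.2 ⟨Finset.mem_range.2 h1, h⟩) h2
  choose b1 b2 hb using hex
  let bb : Bool → List (Fin M) → ℕ → Fin M := fun s w c => if s = true then b1 w c else b2 w c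
  have h0 : g [] < N := by
    have h1 := hgΛ [] (by simp)
    have h2 : g [] < n + 1 := Finset.mem_range.1 h1
    omega
  obtain ⟨x, hx1, hx2, hx3, hx4⟩ := hN0 N hN1 M F bb (g []) hF
  obtain ⟨l, hl1, hl2, hl3, a, ha, hl4⟩ := exists_rep n N M g F bb h0 hF (by
    intro w c _ hc hcF
    obtain ⟨h1, h2, h3⟩ := hb w c hc hcF
    exact ⟨h2, h3, h1⟩) x hx1 hx2 hx3 hx4
  obtain ⟨l', hl'⟩ : ∃ l' : List (VT M (n + 1)), l'.map Subtype.val = l := by
    refine ⟨l.pmap (fun w h => ⟨w, h⟩) hl3, ?_⟩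
    rw [List.map_pmap]
    simp
  subst hl'
  refine not_nonrep (GT M (n + 1)) f l' ?_ (List.Nodup.of_map _ hl2) a ha ?_
  · rw [List.isChain_map] at hl1
    exact hl1
  · rw [← hl4, List.map_map]
    refine List.map_congr_left ?_
    intro v _
    exact (hg v).symm

end Pool.Agent.H54LB
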